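import Pool.Agent.H25.TRI.Targets

/-! Row MOW (MP_2697e3_an): mollification commutes with weak derivatives. -/

set_option autoImplicit false

namespace Pool.Agent.H69.TRI

open MeasureTheory Metric Set Filter Topology Pool.Agent.H87.SN Pool.Agent.H25.TRI
open scoped ContDiff RealInnerProductSpace ENNReal Convolution

private theorem conv_eq {n : ℕ} (m f : E n → ℝ) (x : E n) :
    ∫ z, m z * f (x - z) = ∫ w, m (x - w) * f w := by
  rw [← integral_sub_left_eq_self (fun z => m z * f (x - z)) volume x]
  refine integral_congr_ae (Filter.Eventually.of_forall fun w => ?_)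
  change m (x - w) * f (x - (x - w)) = m (x - w) * f w
  rw [sub_sub_cancel]

private theorem fderiv_conv {n : ℕ} {m f : E n → ℝ} (hm : Cc m) (hf : Integrable f) (x v : E n) :
    fderiv ℝ (fun y => ∫ z, m z * f (y - z)) x v = ∫ w, fderiv ℝ m (x - w) v * f w := by
  have e : (fun y => ∫ z, m z * f (y - z)) =
      (m ⋆[ContinuousLinearMap.lsmul ℝ ℝ, volume] f : E n → ℝ) := by
    funext y
    rfl
  have hfl : LocallyIntegrable f := hf.locallyIntegrable
  have h1 : HasFDerivAt (m ⋆[ContinuousLinearMap.lsmul ℝ ℝ, volume] f : E n → ℝ)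
      ((fderiv ℝ m ⋆[(ContinuousLinearMap.lsmul ℝ ℝ).precompL (E n), volume] f) x) x :=
    hm.2.hasFDerivAt_convolution_left _ (hm.1.of_le (by simp)) hfl x
  rw [e, h1.fderiv, convolution_eq_swap]
  have hI : Integrable (fun t => (((ContinuousLinearMap.lsmul ℝ ℝ).precompL (E n))
      (fderiv ℝ m (x - t))) (f t)) := by
    have := (hm.2.fderiv (𝕜 := ℝ)).convolutionExists_left
      ((ContinuousLinearMap.lsmul ℝ ℝ).precompL (E n))
      (hm.1.continuous_fderiv (by simp)) hfl x
    exact (convolutionExistsAt_iff_integrable_swap).1 this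
  rw [ContinuousLinearMap.integral_apply hI]
  rfl

theorem pf_MOW : T_MOW := by
  intro n m f D hm hf _ _ hW i x
  have h1 : pd i (fun y => ∫ z, m z * f (y - z)) x = ∫ w, pd i m (x - w) * f w :=
    fderiv_conv hm hf x (bv i)
  have hφ : Cc (fun w => m (x - w)) := by
    refine ⟨hm.1.comp (contDiff_const.sub contDiff_id), ?_⟩
    exact hm.2.comp_homeomorph (Homeomorph.subLeft x)
  have hpd : ∀ w, pd i (fun w => m (x - w)) w = - pd i m (x - w) := by
    intro w
    have h2 : HasFDerivAt (fun w : E n => x - w) (-(ContinuousLinearMap.id ℝ (E n))) w :=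
      (hasFDerivAt_id w).const_sub x
    have h3 : HasFDerivAt m (fderiv ℝ m (x - w)) (x - w) :=
      ((hm.1.differentiable (by simp)) (x - w)).hasFDerivAt
    have h4 := h3.comp w h2
    unfold pd
    have h5 : fderiv ℝ (fun w => m (x - w)) w =
        (fderiv ℝ m (x - w)).comp (-(ContinuousLinearMap.id ℝ (E n))) := h4.fderiv
    rw [h5]
    simp
  have h6 := hW (fun w => m (x - w)) hφ i
  have h7 : ∫ w, f w * pd i (fun w => m (x - w)) w = - ∫ w, pd i m (x - w) * f w := by
    rw [← integral_neg]
    refine integral_congr_ae (Filter.Eventually.of_forall fun w => ?_)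
    change f w * pd i (fun w => m (x - w)) w = -(pd i m (x - w) * f w)
    rw [hpd]
    ring
  rw [h7] at h6
  rw [h1, neg_inj.1 h6, conv_eq m (D i) x]
  refine integral_congr_ae (Filter.Eventually.of_forall fun w => ?_)
  exact mul_comm _ _

end Pool.Agent.H69.TRI
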