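import Pool.Agent.H25.TRI.Targets
import Pool.Agent.H48.RG.Defs

/-! Row CNV (MP_2697e3_an): conversion of the trilinear estimate to the form used in part D. -/

set_option autoImplicit false

namespace Pool.Agent.H69.TRI

open MeasureTheory Metric Set Filter Topology Pool.Agent.H87.SN Pool.Agent.H25.TRI
open scoped ContDiff RealInnerProductSpace ENNReal

private theorem inner_bv {n : ℕ} (u : E n) (i : Fin n) : ⟪u, bv i⟫ = u i := by
  unfold bv
  rw [EuclideanSpace.inner_single_right]
  simp

private theorem abs_coord {n : ℕ} (u : E n) (i : Fin n) : ‖u i‖ ≤ ‖u‖ := PiLp.norm_apply_le u i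

private theorem memLp_coord {n : ℕ} {F : E n → E n} (hF : MemLp F 2 volume) (i : Fin n) :
    MemLp (fun x => F x i) 2 volume :=
  (EuclideanSpace.proj i : E n →L[ℝ] ℝ).comp_memLp' hF

private theorem cs_of_off {n : ℕ} {f : E n → ℝ} (h : ∀ x, x ∉ closedBall (0 : E n) 1 → f x = 0) :
    HasCompactSupport f := by
  refine HasCompactSupport.of_support_subset_isCompact (isCompact_closedBall (0 : E n) 1) ?_
  intro x hx
  by_contra hcon
  exact hx (h x hcon)

private theorem int_of_off {n : ℕ} {f : E n → ℝ} (hf : MemLp f 2 volume)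
    (h : ∀ x, x ∉ closedBall (0 : E n) 1 → f x = 0) : Integrable f := by
  have h1 : Function.support f ⊆ closedBall (0 : E n) 1 := by
    intro x hx
    by_contra hcon
    exact hx (h x hcon)
  rw [← integrableOn_iff_integrable_of_support_subset h1]
  have h2 : MemLp f 2 (volume.restrict (closedBall (0 : E n) 1)) := hf.restrict _
  have : IsFiniteMeasure (volume.restrict (closedBall (0 : E n) 1)) :=
    ⟨by rw [Measure.restrict_apply_univ]; exact measure_closedBall_lt_top⟩
  exact memLp_one_iff_integrable.1 (h2.mono_exponent (by norm_num))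

private theorem sq_le {n : ℕ} {F : E n → E n} (hF : MemLp F 2 volume) (i : Fin n) :
    Real.sqrt (∫ x, (F x i) ^ 2) ≤ Real.sqrt (∫ x, ‖F x‖ ^ 2) := by
  refine Real.sqrt_le_sqrt ?_
  refine integral_mono_of_nonneg (Filter.Eventually.of_forall fun x => sq_nonneg _)
    (hF.integrable_norm_pow (by norm_num)) (Filter.Eventually.of_forall fun x => ?_)
  change (F x i) ^ 2 ≤ ‖F x‖ ^ 2
  rw [← sq_abs]
  exact pow_le_pow_left₀ (abs_nonneg _) (abs_coord (F x) i) 2

theorem pf_CNV (hTRI : T_TRI) : Pool.Agent.H48.RG.T_TRI := by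
  intro n hn
  obtain ⟨C, hC, hT⟩ := hTRI n hn
  refine ⟨C * n * n, by positivity, ?_⟩
  intro b g Db G Dg M hM hb hMor hG hGo hDF hg
  have hbo := hb.off
  have hgo := hg.off
  have hbm : AEStronglyMeasurable b volume := by
    have := hb.wb.ms
    rwa [Measure.restrict_univ] at this
  obtain ⟨K, hK⟩ := hb.wb.bd
  rw [Measure.restrict_univ] at hK
  have hDb : MemLp Db 2 volume := by
    have := hb.wb.d2
    rwa [Measure.restrict_univ] at this
  have hgm : AEStronglyMeasurable g volume := by
    have := hg.wb.ms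
    rwa [Measure.restrict_univ] at this
  obtain ⟨K', hK'⟩ := hg.wb.bd
  rw [Measure.restrict_univ] at hK'
  have hDg : MemLp Dg 2 volume := by
    have := hg.wb.d2
    rwa [Measure.restrict_univ] at this
  have hDbo : ∀ i x, x ∉ closedBall (0 : E n) 1 → Db x i = 0 := by
    intro i x hx
    rw [(hbo x hx).2]
    rfl
  have hGio : ∀ i x, x ∉ closedBall (0 : E n) 1 → G x i = 0 := by
    intro i x hx
    rw [hGo x hx]
    rfl
  have hWG : ∀ (f : E n → ℝ) (D : E n → E n), Pool.Agent.H48.RG.WG univ f D →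
      WG f (fun i x => D x i) := by
    intro f D h φ hφ i
    have h1 := h φ ⟨hφ.1, hφ.2, subset_univ _⟩ (bv i)
    have h2 : ∫ x, f x * pd i φ x = ∫ x, fderiv ℝ φ x (bv i) * f x :=
      integral_congr_ae (Filter.Eventually.of_forall fun x => mul_comm _ _)
    have h3 : ∫ x, (fun i x => D x i) i x * φ x = ∫ x, φ x * ⟪D x, bv i⟫ := by
      refine integral_congr_ae (Filter.Eventually.of_forall fun x => ?_)
      change D x i * φ x = φ x * ⟪D x, bv i⟫
      rw [inner_bv, mul_comm]
    rw [h2, h1, h3]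
  have hMo : ∀ i, Mor (fun x => Db x i) M := by
    intro i y r hr
    have hDbI : IntegrableOn Db (ball y r) := by
      have h2 : MemLp Db 2 (volume.restrict (ball y r)) := hDb.restrict _
      have : IsFiniteMeasure (volume.restrict (ball y r)) :=
        ⟨by rw [Measure.restrict_apply_univ]; exact measure_ball_lt_top⟩
      exact memLp_one_iff_integrable.1 (h2.mono_exponent (by norm_num))
    calc ∫⁻ x in ball y r, ‖Db x i‖ₑ ≤ ∫⁻ x in ball y r, ‖Db x‖ₑ := by
          refine lintegral_mono fun x => ?_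
          rw [← ofReal_norm, ← ofReal_norm]
          exact ENNReal.ofReal_le_ofReal (abs_coord (Db x) i)
      _ = ENNReal.ofReal (∫ x in ball y r, ‖Db x‖) :=
          (ofReal_integral_norm_eq_lintegral_enorm hDbI).symm
      _ ≤ ENNReal.ofReal (M * r ^ (n - 1)) :=
          ENNReal.ofReal_le_ofReal (hMor y r hr (subset_univ _))
  have hdiv : ∀ φ : E n → ℝ, Cc φ → ∑ i : Fin n, ∫ x, G x i * pd i φ x = 0 := by
    intro φ hφ
    have h1 := hDF φ ⟨hφ.1, hφ.2, subset_univ _⟩
    have h2 : ∀ i ∈ (Finset.univ : Finset (Fin n)), Integrable (fun x => G x i * pd i φ x) := by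
      intro i _
      obtain ⟨B, hB⟩ := (hφ.pd i).bdd
      exact (int_of_off (memLp_coord hG i) (hGio i)).mul_bdd (c := B)
        (hφ.pd i).continuous.aestronglyMeasurable (Filter.Eventually.of_forall hB)
    rw [← integral_finset_sum _ h2, ← h1]
    refine integral_congr_ae (Filter.Eventually.of_forall fun x => ?_)
    change ∑ i, G x i * fderiv ℝ φ x (bv i) = fderiv ℝ φ x (G x)
    have h3 : G x = ∑ i, G x i • (bv i : E n) := by
      ext j
      have h4 : (∑ i, G x i • (bv i : E n)) j = ∑ i, G x i * (Pi.single i (1 : ℝ) : Fin n → ℝ) j := by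
        simp [bv]
      rw [h4, Finset.sum_eq_single j]
      · simp
      · intro k _ hk
        rw [Pi.single_eq_of_ne (Ne.symm hk), mul_zero]
      · intro h
        exact absurd (Finset.mem_univ _) h
    conv_rhs => rw [h3]
    rw [map_sum]
    refine Finset.sum_congr rfl fun i _ => ?_
    rw [map_smul, smul_eq_mul]
  have hg2 : MemLp g 2 volume := by
    have h1 : g = (closedBall (0 : E n) 1).indicator g := by
      funext x
      by_cases hx : x ∈ closedBall (0 : E n) 1
      · rw [indicator_of_mem hx]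
      · rw [indicator_of_notMem hx, (hgo x hx).1]
    rw [h1, memLp_indicator_iff_restrict measurableSet_closedBall]
    have : IsFiniteMeasure (volume.restrict (closedBall (0 : E n) 1)) :=
      ⟨by rw [Measure.restrict_apply_univ]; exact measure_closedBall_lt_top⟩
    exact MemLp.of_bound hgm.restrict K' (ae_restrict_of_ae hK')
  have h1 := hT b g (fun i x => Db x i) (fun i x => G x i) (fun i x => Dg x i) M K hM hbm hK
    (cs_of_off fun x hx => (hbo x hx).1) (fun i => int_of_off (memLp_coord hDb i) (hDbo i))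
    (hWG b Db hb.wb.wg) hMo (memLp_coord hG) (fun i => cs_of_off (hGio i)) hdiv hg2
    (cs_of_off fun x hx => (hgo x hx).1) (memLp_coord hDg) (hWG g Dg hg.wb.wg)
  have h2 : ∫ x, b x * ⟪G x, Dg x⟫ = ∫ x, b x * ∑ i : Fin n, G x i * Dg x i := by
    refine integral_congr_ae (Filter.Eventually.of_forall fun x => ?_)
    change b x * ⟪G x, Dg x⟫ = b x * ∑ i : Fin n, G x i * Dg x i
    rw [PiLp.inner_apply]
    congr 1
    refine Finset.sum_congr rfl fun i _ => ?_
    change Dg x i * G x i = _
    ring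
  have hs : ∀ F : E n → E n, MemLp F 2 volume →
      ∑ i, Real.sqrt (∫ x, (F x i) ^ 2) ≤ n * Real.sqrt (∫ x, ‖F x‖ ^ 2) := by
    intro F hF
    calc ∑ i, Real.sqrt (∫ x, (F x i) ^ 2) ≤ ∑ _i : Fin n, Real.sqrt (∫ x, ‖F x‖ ^ 2) :=
          Finset.sum_le_sum fun i _ => sq_le hF i
      _ = n * Real.sqrt (∫ x, ‖F x‖ ^ 2) := by simp
  rw [h2]
  refine h1.trans ?_
  have hn0 : ∀ F : E n → E n, 0 ≤ ∑ i, Real.sqrt (∫ x, (F x i) ^ 2) := fun F =>
    Finset.sum_nonneg fun _ _ => Real.sqrt_nonneg _
  calc C * M * (∑ i, Real.sqrt (∫ x, (G x i) ^ 2)) * (∑ i, Real.sqrt (∫ x, (Dg x i) ^ 2)) ≤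
        C * M * (n * Real.sqrt (∫ x, ‖G x‖ ^ 2)) * (n * Real.sqrt (∫ x, ‖Dg x‖ ^ 2)) := by
        refine mul_le_mul (mul_le_mul_of_nonneg_left (hs G hG) (by positivity)) (hs Dg hDg)
          (hn0 Dg) (by positivity)
    _ = C * n * n * M * Real.sqrt (∫ x, ‖G x‖ ^ 2) * Real.sqrt (∫ x, ‖Dg x‖ ^ 2) := by ring

end Pool.Agent.H69.TRI
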